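import Mathlib

set_option autoImplicit false

/-!
# Project BD: the Báez-Duarte distance. Definitions and statements of the lemma jobs

`N ≥ 1`, `L = log N`, `s = 1/2 + i t`.
-/

namespace Pool.Agent.Q286.BD

open Complex MeasureTheory Filter Topology Set

/-! ## objects -/

/-- the point `1/2 + i t` -/
noncomputable def cl (t : ℝ) : ℂ := 1 / 2 + t * I

/-- multiplicity of a zero of zeta -/
noncomputable def mz (s : ℂ) : ℕ := analyticOrderNatAt riemannZeta s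

/-- `χ - ∑ a_n {1/(n x)}` -/
noncomputable def dif (N : ℕ) (a : ℕ → ℝ) (x : ℝ) : ℝ :=
  (if x ≤ 1 then 1 else 0) - ∑ n ∈ Finset.Icc 1 N, a n * Int.fract (1 / (n * x))

/-- the same with complex coefficients -/
noncomputable def difC (N : ℕ) (a : ℕ → ℂ) (x : ℝ) : ℂ :=
  ((if x ≤ 1 then 1 else 0 : ℝ) : ℂ) - ∑ n ∈ Finset.Icc 1 N, a n * ((Int.fract (1 / ((n : ℝ) * x)) : ℝ) : ℂ)

/-- the squared distance of the approximation given by `a` -/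
noncomputable def JJ (N : ℕ) (a : ℕ → ℝ) : ℝ := ∫ x in Ioi (0 : ℝ), dif N a x ^ 2

/-- `log (|t| + 16)` -/
noncomputable def Lam (t : ℝ) : ℝ := Real.log (|t| + 16)

/-- `log (|t| + 16) / log log (|t| + 16)` -/
noncomputable def ML (t : ℝ) : ℝ := Lam t / Real.log (Lam t)

/-- Laplace transform of a weight -/
noncomputable def Lap (φ : ℝ → ℝ) (z : ℂ) : ℂ := ∫ u : ℝ, (φ u : ℂ) * cexp (z * u)

/-- weights of Gevrey type with support in `[ε, 1]` -/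
structure Wt (β : ℝ) (φ : ℝ → ℝ) : Prop where
  cont : Continuous φ
  mass : ∫ u, φ u = 1
  supp : ∃ ε : ℝ, 0 < ε ∧ ∀ u, φ u ≠ 0 → ε ≤ u ∧ u ≤ 1
  dec : ∃ ε C c : ℝ, 0 < ε ∧ 0 < C ∧ 0 < c ∧
    ∀ z : ℂ, ‖Lap φ z‖ ≤ C * Real.exp (max z.re 0 - ε * max (-z.re) 0 - c * |z.im| ^ β)

/-- `V(u) = ∫_u^∞ φ` -/
noncomputable def V (φ : ℝ → ℝ) (u : ℝ) : ℝ := ∫ v in Ioi u, φ v

/-- the mollifier `∑_{n ≤ e^L} μ(n) V(log n / L) n^{-s}` -/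
noncomputable def A (φ : ℝ → ℝ) (L : ℝ) (s : ℂ) : ℂ :=
  ∑ n ∈ Finset.Icc 1 ⌊Real.exp L⌋₊,
    (ArithmeticFunction.moebius n : ℂ) * ((V φ (Real.log n / L) : ℝ) : ℂ) * (n : ℂ) ^ (-s)

/-- the limit of `ζ A - 1` at the distance `x / L` of a zero of multiplicity `m` -/
noncomputable def Fm (m : ℕ) (φ : ℝ → ℝ) (x : ℝ) : ℂ :=
  -∫ u : ℝ, (φ u : ℂ) * cexp (-(x * u * I)) * ∑ j ∈ Finset.range m, ((x * u * I) ^ j / (j.factorial : ℂ))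

/-- the localising Dirichlet polynomial -/
noncomputable def Pl (g L2 t : ℝ) : ℂ :=
  1 / (L2 : ℂ) * ∑ n ∈ Finset.Icc 1 ⌊Real.exp L2⌋₊, (n : ℂ) ^ (-(1 + (t - g) * I))

/-! ## zeta under RH (jobs Z1, Z2, Z3) -/

/-- Z1 (a): logarithmic derivative -/
def S_LD : Prop := RiemannHypothesis → ∃ C : ℝ, 0 < C ∧ ∀ u v : ℝ, 0 < v → v ≤ 1 →
  ‖deriv riemannZeta (1 / 2 + v + u * I) / riemannZeta (1 / 2 + v + u * I) + 1 / (-1 / 2 + v + u * I)‖ ≤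
    C * (Lam u + ML u / v)

/-- Z1 (b): logarithm at distance at least `1 / log log` -/
def S_far : Prop := RiemannHypothesis → ∃ C : ℝ, 0 < C ∧ ∀ u v : ℝ, 1 / Real.log (Lam u) ≤ v → v ≤ 1 →
  (1 / 2 + v + u * I : ℂ) ≠ 1 →
  |Real.log (‖riemannZeta (1 / 2 + v + u * I)‖ * ‖(-1 / 2 + v + u * I : ℂ)‖)| ≤ C * (ML u + Real.log (|u| + 2))

/-- Z1 (b'): the same without the factor `s - 1`, away from `1` -/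
def S_far' : Prop := RiemannHypothesis → ∃ C : ℝ, 0 < C ∧ ∀ u v : ℝ, 1 ≤ |u| → 1 / Real.log (Lam u) ≤ v → v ≤ 1 →
  |Real.log ‖riemannZeta (1 / 2 + v + u * I)‖| ≤ C * ML u

/-- Z1 (c): monotonicity of `ξ` -/
def S_mono : Prop := RiemannHypothesis → ∃ C : ℝ, 0 < C ∧ ∀ t h : ℝ, 0 < h → h ≤ 1 →
  ‖riemannZeta (cl t)‖ ≤ C * Real.exp (h * Lam t) * ‖riemannZeta (1 / 2 + h + t * I)‖

/-- Z2 (a): **ratio bound** -/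
def S_ratio : Prop := RiemannHypothesis → ∃ C : ℝ, 0 < C ∧ ∀ t y x : ℝ, 0 < x → x ≤ 1 → |y| ≤ 1 + |t| / 2 →
  ‖riemannZeta (cl t)‖ ≤ Real.exp (C * ML t * Real.log (2 + |y| / x)) *
    ‖riemannZeta (1 / 2 + x + (t + y) * I)‖

/-- Z2 (b): crude lower bound to the right of the line -/
def S_lowb : Prop := RiemannHypothesis → ∃ C : ℝ, 0 < C ∧ ∀ u x : ℝ, 0 < x → x ≤ 1 →
  Real.exp (-(C * Lam u * Real.log (2 + 1 / x))) ≤ ‖riemannZeta (1 / 2 + x + u * I)‖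

/-- Z2 (c): upper bound on the line -/
def S_upz : Prop := RiemannHypothesis → ∃ C : ℝ, 0 < C ∧ ∀ t : ℝ,
  ‖riemannZeta (cl t)‖ ≤ Real.exp (C * ML t)

/-- Z3: no zero of the line within `d` of `t` -/
def S_H : Prop := RiemannHypothesis → ∃ C : ℝ, 0 < C ∧ ∀ t d : ℝ, 0 < d → d ≤ 1 →
  (∀ g : ℝ, riemannZeta (cl g) = 0 → d ≤ |g - t|) →
  ∀ w : ℂ, |w.re| ≤ d / 4 → |w.im| ≤ d / 2 →
  ‖riemannZeta (cl t)‖ ≤ (|t| + 2) ^ C * ‖riemannZeta (cl t + w)‖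

/-! ## the mollifier (jobs P1 - P5) -/

/-- P1: Perron's formula to the right of `1` -/
def S_per : Prop := ∀ (β : ℝ) (φ : ℝ → ℝ), 0 < β → Wt β φ → ∀ (L a : ℝ) (s : ℂ), 0 < L → 0 < a →
  1 < s.re + a / L →
  A φ L s = 1 / (2 * Real.pi) * ∫ K : ℝ, (riemannZeta (s + (a + K * I) / L))⁻¹ * Lap φ (a + K * I) / (a + K * I)

/-- P2: Perron's formula on the critical line -/
def S_perRH : Prop := RiemannHypothesis → ∀ (β : ℝ) (φ : ℝ → ℝ), 0 < β → Wt β φ →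
  ∀ L a t : ℝ, 0 < L → 0 < a →
  Integrable (fun K : ℝ => (riemannZeta (cl t + (a + K * I) / L))⁻¹ * Lap φ (a + K * I) / (a + K * I)) ∧
  A φ L (cl t) =
    1 / (2 * Real.pi) * ∫ K : ℝ, (riemannZeta (cl t + (a + K * I) / L))⁻¹ * Lap φ (a + K * I) / (a + K * I)

/-- P3: pointwise bound, uniform in `L` -/
def S_pt : Prop := RiemannHypothesis → ∃ β0 : ℝ, 0 < β0 ∧ β0 < 1 ∧ ∀ β : ℝ, β0 < β → β < 1 →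
  ∀ φ : ℝ → ℝ, Wt β φ → ∃ C L0 : ℝ, 0 < C ∧ 1 ≤ L0 ∧ ∀ L : ℝ, L0 ≤ L → ∀ t : ℝ, |t| ≤ Real.exp (10 * L) →
  ‖riemannZeta (cl t) * A φ L (cl t)‖ ≤ C * (1 + |t|) ^ (1 / 4 : ℝ)

/-- P4: decay away from the zeros -/
def S_dec : Prop := RiemannHypothesis → ∃ β0 : ℝ, 0 < β0 ∧ β0 < 1 ∧ ∀ β : ℝ, β0 < β → β < 1 →
  ∀ φ : ℝ → ℝ, Wt β φ → ∃ C L0 : ℝ, 0 < C ∧ 1 ≤ L0 ∧ ∀ L : ℝ, L0 ≤ L → ∀ t d : ℝ, |t| ≤ Real.exp (10 * L) →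
  0 < d → d ≤ 1 → (∀ g : ℝ, riemannZeta (cl g) = 0 → d ≤ |g - t|) →
  ‖riemannZeta (cl t) * A φ L (cl t) - 1‖ ≤ C * (1 + |t|) ^ (3 / 8 : ℝ) / (1 + L * d)

/-- P5 (a): Laplace inversion -/
def S_inv : Prop := ∀ (β : ℝ) (φ : ℝ → ℝ), 0 < β → Wt β φ → ∀ (m : ℕ) (x : ℝ), 1 ≤ m →
  1 / (2 * Real.pi) * ∫ K : ℝ, (x * I / (x * I + (1 + K * I))) ^ m * Lap φ (1 + K * I) / (1 + K * I) =
    1 + Fm m φ x

/-- P5 (b): the limit near a zero -/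
def S_lim : Prop := RiemannHypothesis → ∀ (β : ℝ) (φ : ℝ → ℝ), 0 < β → Wt β φ →
  ∀ (g x : ℝ), riemannZeta (cl g) = 0 →
  Tendsto (fun L : ℝ => riemannZeta (cl (g + x / L)) * A φ L (cl (g + x / L))) atTop
    (𝓝 (1 + Fm (mz (cl g)) φ x))

/-! ## assembly, weights, localisation (jobs P6, P7, P8) -/

/-- P6: integration over the line -/
def S_asm : Prop := ∀ (G : Set ℝ) (K0 : ℝ),
  (∀ T : ℝ, (G ∩ Icc T (T + 1)).Finite ∧ ((G ∩ Icc T (T + 1)).ncard : ℝ) ≤ K0 * Real.log (|T| + 2)) →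
  ∀ (U : ℝ → ℝ → ℂ) (u : ℝ → ℝ → ℂ) (C L0 : ℝ), 0 < C → 1 ≤ L0 →
  (∀ L, Measurable (U L)) →
  (∀ L : ℝ, L0 ≤ L → ∀ t d : ℝ, |t| ≤ Real.exp (10 * L) → 0 < d → d ≤ 1 → (∀ g ∈ G, d ≤ |g - t|) →
    ‖U L t‖ ≤ C * (1 + |t|) ^ (3 / 8 : ℝ) / (1 + L * d)) →
  (∀ L : ℝ, L0 ≤ L → ∀ t : ℝ, Real.exp (10 * L) ≤ |t| → ‖U L t‖ ^ 2 ≤ C * Real.exp L * (1 + |t|) ^ (1 / 2 : ℝ)) →
  (∀ g ∈ G, ∀ x : ℝ, Tendsto (fun L : ℝ => U L (g + x / L)) atTop (𝓝 (u g x))) →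
  (∀ g ∈ G, Integrable (fun x : ℝ => ‖u g x‖ ^ 2)) ∧
  Summable (fun g : G => (∫ x : ℝ, ‖u g x‖ ^ 2) / (1 / 4 + (g : ℝ) ^ 2)) ∧
  (∀ L : ℝ, L0 ≤ L → Integrable (fun t : ℝ => ‖U L t‖ ^ 2 / (1 / 4 + t ^ 2))) ∧
  ∀ η : ℝ, 0 < η → ∀ᶠ L : ℝ in atTop, L * ∫ t : ℝ, ‖U L t‖ ^ 2 / (1 / 4 + t ^ 2) ≤
    ∑' g : G, (∫ x : ℝ, ‖u g x‖ ^ 2) / (1 / 4 + (g : ℝ) ^ 2) + η

/-- P7 (a): a compactly supported measure with almost exponentially decaying transform -/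
def S_gev : Prop := ∀ β : ℝ, 0 < β → β < 1 → ∃ ν : Measure ℝ, IsProbabilityMeasure ν ∧ ν (Icc 1 2)ᶜ = 0 ∧
  ∃ C c : ℝ, 0 < C ∧ 0 < c ∧ ∀ z : ℂ,
    ‖∫ w : ℝ, cexp (z * w) ∂ν‖ ≤ C * Real.exp (2 * max z.re 0 - max (-z.re) 0 - c * |z.im| ^ β)

/-- P7 (b): the kernel of evaluation at `0` on polynomials of degree `< m` on `[0, 1]` -/
def S_leg : Prop := ∀ m : ℕ, 1 ≤ m → ∃ p : Polynomial ℝ, p.degree < m ∧ p.eval 0 = (m : ℝ) ^ 2 ∧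
  ∀ q : Polynomial ℝ, q.degree < m → ∫ u in (0 : ℝ)..1, p.eval u * q.eval u = q.eval 0

/-- P7 (c): nearly optimal weights -/
def S_cost : Prop := ∀ β : ℝ, 0 < β → β < 1 → ∀ m : ℕ, 1 ≤ m → ∀ η : ℝ, 0 < η → ∃ φ : ℝ → ℝ, Wt β φ ∧
  Integrable (fun x : ℝ => ‖Fm m φ x‖ ^ 2) ∧
  1 / (2 * Real.pi) * ∫ x : ℝ, ‖Fm m φ x‖ ^ 2 ≤ (m : ℝ) ^ 2 + η

/-- P8: the localising polynomials -/
def S_loc : Prop :=
  (∀ g L2 t : ℝ, 1 ≤ L2 → ‖Pl g L2 t‖ ≤ 2) ∧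
  (∀ g e x : ℝ, 0 < e → Tendsto (fun L : ℝ => Pl g (e * L) (g + x / L)) atTop
    (𝓝 (∫ v in (0 : ℝ)..1, cexp (-(e * x * v * I))))) ∧
  ∀ g g' e x : ℝ, 0 < e → g' ≠ g → Tendsto (fun L : ℝ => Pl g (e * L) (g' + x / L)) atTop (𝓝 0)

/-! ## the distance (jobs M1, E1, C1) -/

/-- M1: Plancherel -/
def S_mel : Prop := ∀ (N : ℕ) (a : ℕ → ℂ), 1 ≤ N →
  Integrable (fun t : ℝ => ‖1 + riemannZeta (cl t) * ∑ n ∈ Finset.Icc 1 N, a n * (n : ℂ) ^ (-cl t)‖ ^ 2 /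
    (1 / 4 + t ^ 2)) ∧
  IntegrableOn (fun x : ℝ => ‖difC N a x‖ ^ 2) (Ioi 0) ∧
  ∫ x in Ioi (0 : ℝ), ‖difC N a x‖ ^ 2 =
  1 / (2 * Real.pi) * ∫ t : ℝ, ‖1 + riemannZeta (cl t) * ∑ n ∈ Finset.Icc 1 N, a n * (n : ℂ) ^ (-cl t)‖ ^ 2 /
    (1 / 4 + t ^ 2)

/-- E1: if RH fails the distance does not tend to zero -/
def S_nrh : Prop := ¬ RiemannHypothesis → ∃ c : ℝ, 0 < c ∧ ∀ (N : ℕ) (a : ℕ → ℝ), c ≤ JJ N a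

/-- C1 (a) -/
def S_const : Prop := RiemannHypothesis →
  ∑' ρ : {s : ℂ // riemannZeta s = 0 ∧ 0 < s.re ∧ s.re < 1}, (mz ρ : ℝ) / ‖(ρ : ℂ)‖ ^ 2 =
    2 + Real.eulerMascheroniConstant - Real.log (4 * Real.pi)

/-- C1 (b) -/
def S_sum2 : Prop :=
  Summable (fun ρ : {s : ℂ // riemannZeta s = 0 ∧ 0 < s.re ∧ s.re < 1} => (mz ρ : ℝ) ^ 2 / ‖(ρ : ℂ)‖ ^ 2)

/-- C1 (c): zeros in unit intervals -/
def S_cnt : Prop := ∃ K0 : ℝ, ∀ T : ℝ, ({g : ℝ | riemannZeta (cl g) = 0} ∩ Icc T (T + 1)).Finite ∧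
  (({g : ℝ | riemannZeta (cl g) = 0} ∩ Icc T (T + 1)).ncard : ℝ) ≤ K0 * Real.log (|T| + 2)

/-! ## the lower bound (jobs B1 - B5), in the variable `y = 1 / x` -/

/-- B1: orthogonality at a zero with multiplicity -/
def S_orth : Prop := ∀ (ρ : ℂ), 0 < ρ.re → ρ.re < 1 → ∀ (j n : ℕ), j < mz ρ → 1 ≤ n →
  IntegrableOn (fun y : ℝ => ((Int.fract (y / (n : ℝ)) : ℝ) : ℂ) * (y : ℂ) ^ (-ρ - 1) * ((Real.log y : ℝ) : ℂ) ^ j) (Ioi 1) ∧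
  ∫ y in Ioi (1 : ℝ), ((Int.fract (y / (n : ℝ)) : ℝ) : ℂ) * (y : ℂ) ^ (-ρ - 1) * ((Real.log y : ℝ) : ℂ) ^ j =
    -(1 / (n : ℂ) * ((-1) ^ j * (j.factorial : ℂ) / (1 - ρ) ^ (j + 1)))

/-- B2: the sawtooth against a smooth function -/
def S_saw : Prop := ∀ J : ℕ, ∃ C : ℝ, 0 < C ∧ ∀ (R : ℝ → ℂ) (θ : ℝ), 0 < θ → ContDiff ℝ J R →
  (∀ j ≤ J, Integrable (iteratedDeriv j R)) → ∫ y : ℝ, R y = 0 →
  ‖∫ y : ℝ, ((Int.fract (θ * y) : ℝ) : ℂ) * R y‖ ≤ C * θ⁻¹ ^ J * ∫ y : ℝ, ‖iteratedDeriv J R y‖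

/-- B3: the coefficients are bounded by the distance -/
def S_coef : Prop := ∃ C : ℝ, 0 < C ∧ ∀ (N : ℕ) (a : ℕ → ℝ), 1 ≤ N →
  IntegrableOn (fun x : ℝ => dif N a x ^ 2) (Ioi 0) ∧
  ∑ n ∈ Finset.Icc 1 N, |a n| ≤ C * (N : ℝ) ^ 3 * (1 + Real.sqrt (JJ N a))

/-- the smooth cutoff: `1` for `v ≤ 1 + δ`, `0` for `v ≥ 1 + 2 δ` -/
noncomputable def hcut (δ v : ℝ) : ℝ := 1 - Real.smoothTransition ((v - 1 - δ) / δ)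

/-- a smooth bump with support in `[1, 2]` and integral one -/
structure Bump (b : ℝ → ℝ) : Prop where
  smooth : ∀ n : ℕ, ContDiff ℝ n b
  supp : ∀ y, b y ≠ 0 → 1 ≤ y ∧ y ≤ 2
  nonneg : ∀ y, 0 ≤ b y
  mass : ∫ y, b y = 1

/-- the test function belonging to the zero `1/2 + i g` (in the variable `y = 1 / x`) -/
noncomputable def KK (b : ℝ → ℝ) (g : ℝ) (p : Polynomial ℝ) (δ L : ℝ) (κ c : ℂ) (y : ℝ) : ℂ :=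
  if y ≤ 0 then 0 else if y < 1 then κ / y else
    (y : ℂ) ^ (-cl g - 1) * ((p.eval (Real.log y / ((1 + 2 * δ) * L)) : ℝ) : ℂ) * ((hcut δ (Real.log y / L) : ℝ) : ℂ) +
      c * ((Real.exp (-((1 + δ) * L)) : ℝ) : ℂ) * ((b (y * Real.exp (-((1 + δ) * L))) : ℝ) : ℂ)

/-- B4 (a): near orthogonality and the pairing with `χ` -/
def S_T1 : Prop := ∀ (b : ℝ → ℝ), Bump b → ∀ (g : ℝ) (p : Polynomial ℝ), riemannZeta (cl g) = 0 →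
  p.degree < mz (cl g) → ∀ δ : ℝ, 0 < δ → δ ≤ 1 / 4 → ∃ C : ℝ, 0 < C ∧ ∀ L : ℝ, 1 ≤ L → ∃ κ c : ℂ,
  ‖κ‖ ≤ C ∧ ‖c‖ ≤ C * Real.exp (-((1 + δ) * L / 2)) ∧
  (∀ n : ℕ, 1 ≤ n → (n : ℝ) ≤ Real.exp L →
    ‖∫ y in Ioi (0 : ℝ), ((Int.fract (y / (n : ℝ)) : ℝ) : ℂ) * KK b g p δ L κ c y‖ ≤ C * Real.exp (-(6 * L))) ∧
  ‖(∫ y in Ioi (1 : ℝ), KK b g p δ L κ c y) - ((p.eval 0 : ℝ) : ℂ) / cl g‖ ≤ C / L

/-- B4 (b): the norm of a combination of test functions -/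
def S_T2 : Prop := ∀ (b : ℝ → ℝ), Bump b → ∀ (S : Finset ℝ) (p : ℝ → Polynomial ℝ) (w : ℝ → ℂ) (δ C0 η : ℝ),
  0 < δ → δ ≤ 1 / 4 → 0 < C0 → 0 < η → ∀ᶠ L : ℝ in atTop, ∀ κ c : ℝ → ℂ,
  (∀ g ∈ S, ‖κ g‖ ≤ C0 ∧ ‖c g‖ ≤ C0 * Real.exp (-((1 + δ) * L / 2))) →
  IntegrableOn (fun y : ℝ => ‖∑ g ∈ S, w g * KK b g (p g) δ L (κ g) (c g) y‖ ^ 2 * y ^ 2) (Ioi 0) ∧
  ∫ y in Ioi (0 : ℝ), ‖∑ g ∈ S, w g * KK b g (p g) δ L (κ g) (c g) y‖ ^ 2 * y ^ 2 ≤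
    L * ((1 + 2 * δ) * ∑ g ∈ S, ‖w g‖ ^ 2 * (∫ u in (0 : ℝ)..1, (p g).eval u ^ 2) + η)

/-- B5: **Burnol's lower bound** for finitely many zeros on the line -/
def S_low : Prop := ∀ (S : Finset ℝ), (∀ g ∈ S, riemannZeta (cl g) = 0) → ∀ η : ℝ, 0 < η →
  ∀ᶠ N : ℕ in atTop, ∀ a : ℕ → ℝ,
  ∑ g ∈ S, (mz (cl g) : ℝ) ^ 2 / (1 / 4 + g ^ 2) - η ≤ JJ N a * Real.log N

/-! ## the upper bound (job U) -/

/-- U: upper bound under RH -/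
def S_up : Prop := RiemannHypothesis → ∀ η : ℝ, 0 < η → ∀ᶠ N : ℕ in atTop, ∃ a : ℕ → ℝ,
  JJ N a * Real.log N ≤ ∑' g : {g : ℝ | riemannZeta (cl g) = 0}, (mz (cl g) : ℝ) ^ 2 / (1 / 4 + (g : ℝ) ^ 2) + η

end Pool.Agent.Q286.BD
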