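import Pool.Agent.Q286.BD.Spec

set_option autoImplicit false

/-!
# Project BD: conclusion
-/

namespace Pool.Agent.Q286.BD

open Complex MeasureTheory Filter Topology Set

/-- the squared distance -/
noncomputable def d2 (N : ℕ) : ℝ := ⨅ a : ℕ → ℝ, JJ N a

/-- nontrivial zeros -/
abbrev Zr : Type := {s : ℂ // riemannZeta s = 0 ∧ 0 < s.re ∧ s.re < 1}

/-- Burnol's constant -/
noncomputable def CB : ℝ := ∑' ρ : Zr, (mz ρ : ℝ) ^ 2 / ‖(ρ : ℂ)‖ ^ 2

/-- ordinates of the zeros on the line -/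
abbrev Go : Set ℝ := {g : ℝ | riemannZeta (cl g) = 0}

lemma cl_re (g : ℝ) : (cl g).re = 1 / 2 := by simp [cl]
lemma cl_im (g : ℝ) : (cl g).im = g := by simp [cl]

lemma norm_cl_sq (g : ℝ) : ‖cl g‖ ^ 2 = 1 / 4 + g ^ 2 := by
  rw [← Complex.normSq_eq_norm_sq, Complex.normSq_apply, cl_re, cl_im]; ring

lemma JJ_nonneg (N : ℕ) (a : ℕ → ℝ) : 0 ≤ JJ N a :=
  integral_nonneg fun _ => sq_nonneg _

lemma bdd (N : ℕ) : BddBelow (Set.range fun a : ℕ → ℝ => JJ N a) :=
  ⟨0, by rintro _ ⟨a, rfl⟩; exact JJ_nonneg N a⟩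

lemma d2_nonneg (N : ℕ) : 0 ≤ d2 N := Real.iInf_nonneg fun a => JJ_nonneg N a

lemma d2_le (N : ℕ) (a : ℕ → ℝ) : d2 N ≤ JJ N a := ciInf_le (bdd N) a

lemma le_d2 {N : ℕ} {c : ℝ} (h : ∀ a, c ≤ JJ N a) : c ≤ d2 N := le_ciInf h

/-- the zeros on the line and, under RH, all zeros -/
noncomputable def eqv (hRH : RiemannHypothesis) : Go ≃ Zr where
  toFun g := ⟨cl g, g.2, by rw [cl_re]; norm_num, by rw [cl_re]; norm_num⟩
  invFun ρ := ⟨(ρ : ℂ).im, by
    have h := ρ.2
    have h1 : (ρ : ℂ).re = 1 / 2 := by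
      refine hRH ρ h.1 ?_ ?_
      · rintro ⟨n, hn⟩
        have := congrArg Complex.re hn
        have h2 : (-2 * ((n : ℂ) + 1)).re = -2 * ((n : ℝ) + 1) := by simp
        rw [h2] at this
        have h3 := h.2.1
        have : (0 : ℝ) ≤ n := Nat.cast_nonneg n
        linarith
      · intro h1
        have := h.2.2
        rw [h1] at this
        simp at this
    have e : cl (ρ : ℂ).im = ρ := by
      apply Complex.ext
      · rw [cl_re, h1]
      · rw [cl_im]
    show riemannZeta (cl (ρ : ℂ).im) = 0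
    rw [e]; exact h.1⟩
  left_inv g := by
    apply Subtype.ext
    exact cl_im g
  right_inv ρ := by
    apply Subtype.ext
    have h := ρ.2
    have h1 : (ρ : ℂ).re = 1 / 2 := by
      refine hRH ρ h.1 ?_ ?_
      · rintro ⟨n, hn⟩
        have := congrArg Complex.re hn
        have h2 : (-2 * ((n : ℂ) + 1)).re = -2 * ((n : ℝ) + 1) := by simp
        rw [h2] at this
        have h3 := h.2.1
        have : (0 : ℝ) ≤ n := Nat.cast_nonneg n
        linarith
      · intro h1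
        have := h.2.2
        rw [h1] at this
        simp at this
    show cl (ρ : ℂ).im = ρ
    apply Complex.ext
    · rw [cl_re, h1]
    · rw [cl_im]

lemma eqv_coe (hRH : RiemannHypothesis) (g : Go) : ((eqv hRH g : Zr) : ℂ) = cl g := rfl

lemma sum_line (hRH : RiemannHypothesis) :
    ∑' g : Go, (mz (cl g) : ℝ) ^ 2 / (1 / 4 + (g : ℝ) ^ 2) = CB := by
  unfold CB
  rw [← (eqv hRH).tsum_eq]
  refine tsum_congr fun g => ?_
  rw [eqv_coe, norm_cl_sq]

lemma summ_line (hRH : RiemannHypothesis) (h : S_sum2) :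
    Summable (fun g : Go => (mz (cl g) : ℝ) ^ 2 / (1 / 4 + (g : ℝ) ^ 2)) := by
  unfold S_sum2 at h
  refine ((eqv hRH).summable_iff.mpr h).congr fun g => ?_
  show (mz ((eqv hRH g : Zr) : ℂ) : ℝ) ^ 2 / ‖((eqv hRH g : Zr) : ℂ)‖ ^ 2 = _
  rw [eqv_coe, norm_cl_sq]

theorem tends (hup : S_up) (hlow : S_low) (h2 : S_sum2) (hRH : RiemannHypothesis) :
    Tendsto (fun N : ℕ => d2 N * Real.log N) atTop (𝓝 CB) := by
  have hs := summ_line hRH h2
  rw [← sum_line hRH, Metric.tendsto_atTop]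
  intro ε hε
  have hu := hup hRH (ε / 2) (by linarith)
  -- a finite set with almost the full sum
  have h3 := hs.hasSum
  have h4 : ∀ᶠ S : Finset Go in atTop,
      ∑' g : Go, (mz (cl g) : ℝ) ^ 2 / (1 / 4 + (g : ℝ) ^ 2) - ε / 4 <
        ∑ g ∈ S, (mz (cl g) : ℝ) ^ 2 / (1 / 4 + (g : ℝ) ^ 2) :=
    h3.eventually_const_lt (by linarith)
  obtain ⟨S, hS⟩ := h4.exists
  have hl := hlow (S.map (Function.Embedding.subtype _)) (by
    intro g hg
    rw [Finset.mem_map] at hg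
    obtain ⟨g', -, rfl⟩ := hg
    exact g'.2) (ε / 4) (by linarith)
  rw [Finset.sum_map] at hl
  obtain ⟨N0, hN0⟩ := eventually_atTop.mp (hu.and (hl.and (eventually_ge_atTop 1)))
  refine ⟨N0, fun N hN => ?_⟩
  obtain ⟨⟨a, ha⟩, hb, hN1⟩ := hN0 N hN
  have hlog : 0 ≤ Real.log N := Real.log_natCast_nonneg N
  have u1 : d2 N * Real.log N ≤ JJ N a * Real.log N := mul_le_mul_of_nonneg_right (d2_le N a) hlog
  have l1 : ∑ g ∈ S, (mz (cl g) : ℝ) ^ 2 / (1 / 4 + (g : ℝ) ^ 2) - ε / 4 ≤ d2 N * Real.log N := by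
    rcases hlog.eq_or_lt with h0 | hpos
    · have := hb (fun _ => 0)
      rw [← h0, mul_zero] at this ⊢
      exact this
    · rw [← div_le_iff₀ hpos]
      refine le_d2 fun b => ?_
      rw [div_le_iff₀ hpos]
      exact hb b
  rw [Real.dist_eq, abs_lt]
  constructor <;> linarith

theorem not_tends (hn : S_nrh) (h : ¬ RiemannHypothesis) {C : ℝ}
    (hC : ∃ᶠ N : ℕ in atTop, d2 N * Real.log N ≤ C) : False := by
  obtain ⟨c, hc, hb⟩ := hn h
  have h1 : Tendsto (fun N : ℕ => c * Real.log N) atTop atTop :=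
    (Real.tendsto_log_atTop.comp tendsto_natCast_atTop_atTop).const_mul_atTop hc
  obtain ⟨N, hN1, hN2⟩ := (hC.and_eventually (h1.eventually_gt_atTop C)).exists
  have h2 : c * Real.log N ≤ d2 N * Real.log N :=
    mul_le_mul_of_nonneg_right (le_d2 fun a => hb N a) (Real.log_natCast_nonneg N)
  linarith

theorem iff1 (hup : S_up) (hlow : S_low) (hn : S_nrh) (h2 : S_sum2) :
    RiemannHypothesis ↔ Tendsto (fun N : ℕ => d2 N * Real.log N) atTop (𝓝 CB) := by
  refine ⟨tends hup hlow h2, fun h => ?_⟩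
  by_contra hno
  exact not_tends hn hno (C := CB + 1) (h.eventually_le_const (by linarith)).frequently

theorem iff2 (hup : S_up) (hlow : S_low) (hn : S_nrh) (h2 : S_sum2) :
    RiemannHypothesis ↔ ∃ C : ℝ, ∀ N : ℕ, 2 ≤ N → d2 N ≤ C / Real.log N := by
  constructor
  · intro hRH
    have h := (tends hup hlow h2 hRH).bddAbove_range
    obtain ⟨C, hC⟩ := h
    refine ⟨C, fun N hN => ?_⟩
    have hpos : 0 < Real.log N := Real.log_pos (by exact_mod_cast (by omega : 1 < N))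
    rw [le_div_iff₀ hpos]
    exact hC ⟨N, rfl⟩
  · rintro ⟨C, hC⟩
    by_contra hno
    refine not_tends hn hno (C := C) (Eventually.frequently ?_)
    filter_upwards [eventually_ge_atTop 2] with N hN
    have hpos : 0 < Real.log N := Real.log_pos (by exact_mod_cast (by omega : 1 < N))
    exact (le_div_iff₀ hpos).mp (hC N hN)

/-- along a subsequence -/
theorem iff2' (hup : S_up) (hlow : S_low) (hn : S_nrh) (h2 : S_sum2) :
    RiemannHypothesis ↔ ∃ C : ℝ, ∃ᶠ N : ℕ in atTop, d2 N ≤ C / Real.log N := by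
  constructor
  · intro hRH
    obtain ⟨C, hC⟩ := (iff2 hup hlow hn h2).mp hRH
    exact ⟨C, ((eventually_ge_atTop 2).mono fun N hN => hC N hN).frequently⟩
  · rintro ⟨C, hC⟩
    by_contra hno
    refine not_tends hn hno (C := C) ?_
    refine (hC.and_eventually (eventually_ge_atTop 2)).mono ?_
    rintro N ⟨hN1, hN⟩
    have hpos : 0 < Real.log N := Real.log_pos (by exact_mod_cast (by omega : 1 < N))
    exact (le_div_iff₀ hpos).mp hN1

/-- the multiplicity of a zero is at least one -/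
lemma mz_pos (ρ : Zr) : 1 ≤ mz ρ := by
  have h1 : (ρ : ℂ) ≠ 1 := by
    intro h
    have := ρ.2.2.2
    rw [h] at this
    simp at this
  have han : AnalyticAt ℂ riemannZeta (ρ : ℂ) := by
    have hd : DifferentiableOn ℂ riemannZeta {(1 : ℂ)}ᶜ := fun s hs =>
      (differentiableAt_riemannZeta hs).differentiableWithinAt
    exact hd.analyticAt (isOpen_compl_singleton.mem_nhds h1)
  -- not identically zero
  have hfin : analyticOrderAt riemannZeta (ρ : ℂ) ≠ ⊤ := by
    intro htop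
    have hd : AnalyticOnNhd ℂ riemannZeta {(1 : ℂ)}ᶜ := by
      intro s hs
      have hd : DifferentiableOn ℂ riemannZeta {(1 : ℂ)}ᶜ := fun s hs =>
        (differentiableAt_riemannZeta hs).differentiableWithinAt
      exact hd.analyticAt (isOpen_compl_singleton.mem_nhds hs)
    have hpre : IsPreconnected ({(1 : ℂ)}ᶜ : Set ℂ) :=
      (isConnected_compl_singleton_of_one_lt_rank (by simp [Complex.rank_real_complex]) 1).isPreconnected
    have h0 := hd.eqOn_zero_of_preconnected_of_eventuallyEq_zero hpre h1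
      (analyticOrderAt_eq_top.mp htop)
    have h5 := h0 (show (2 : ℂ) ∈ ({(1 : ℂ)}ᶜ : Set ℂ) by simp)
    exact riemannZeta_ne_zero_of_one_le_re (s := 2) (by simp) h5
  have hne : analyticOrderAt riemannZeta (ρ : ℂ) ≠ 0 := han.analyticOrderAt_ne_zero.mpr ρ.2.1
  unfold mz
  rw [Nat.one_le_iff_ne_zero]
  intro h
  unfold analyticOrderNatAt at h
  rw [ENat.toNat_eq_zero] at h
  rcases h with h | h
  · exact hne h
  · exact hfin h

lemma norm_pos' (ρ : Zr) : 0 < ‖(ρ : ℂ)‖ ^ 2 := by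
  have : (ρ : ℂ) ≠ 0 := by
    intro h
    have := ρ.2.2.1
    rw [h] at this
    simp at this
  have := norm_pos_iff.mpr this
  positivity

lemma term_le (ρ : Zr) : (mz ρ : ℝ) / ‖(ρ : ℂ)‖ ^ 2 ≤ (mz ρ : ℝ) ^ 2 / ‖(ρ : ℂ)‖ ^ 2 := by
  have h1 : (1 : ℝ) ≤ mz ρ := by exact_mod_cast mz_pos ρ
  have h2 := norm_pos' ρ
  gcongr
  nlinarith

lemma CB_eq_iff (h2 : S_sum2) :
    CB = ∑' ρ : Zr, (mz ρ : ℝ) / ‖(ρ : ℂ)‖ ^ 2 ↔ ∀ ρ : Zr, mz ρ = 1 := by
  unfold S_sum2 at h2
  have hs1 : Summable (fun ρ : Zr => (mz ρ : ℝ) / ‖(ρ : ℂ)‖ ^ 2) :=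
    Summable.of_nonneg_of_le (fun ρ => by positivity) term_le h2
  constructor
  · intro h ρ
    by_contra hne
    have h3 : (2 : ℝ) ≤ mz ρ := by
      have := mz_pos ρ
      exact_mod_cast (by omega : 2 ≤ mz ρ)
    have hlt : (mz ρ : ℝ) / ‖(ρ : ℂ)‖ ^ 2 < (mz ρ : ℝ) ^ 2 / ‖(ρ : ℂ)‖ ^ 2 := by
      have h4 := norm_pos' ρ
      gcongr
      nlinarith
    have := Summable.tsum_lt_tsum term_le hlt hs1 h2
    unfold CB at h
    linarith
  · intro h
    unfold CB
    refine tsum_congr fun ρ => ?_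
    rw [h ρ]; simp

theorem iff3 (hup : S_up) (hlow : S_low) (hn : S_nrh) (hc : S_const) (h2 : S_sum2) :
    (RiemannHypothesis ∧ ∀ ρ : Zr, mz ρ = 1) ↔
    Tendsto (fun N : ℕ => d2 N * Real.log N) atTop
      (𝓝 (2 + Real.eulerMascheroniConstant - Real.log (4 * Real.pi))) := by
  constructor
  · rintro ⟨hRH, hm⟩
    have h := tends hup hlow h2 hRH
    rw [(CB_eq_iff h2).mpr hm] at h
    have h5 := hc hRH
    rw [← h5]; exact h
  · intro h
    have hRH : RiemannHypothesis := by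
      by_contra hno
      exact not_tends hn hno (C := 2 + Real.eulerMascheroniConstant - Real.log (4 * Real.pi) + 1)
        (h.eventually_le_const (by linarith)).frequently
    refine ⟨hRH, (CB_eq_iff h2).mp ?_⟩
    have h5 := hc hRH
    have h6 := tendsto_nhds_unique (tends hup hlow h2 hRH) h
    rw [h6, ← h5]

end Pool.Agent.Q286.BD
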