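import Pool.Agent.Q286.BD.Spec2
import Pool.Agent.Q286.BD.Fin

set_option autoImplicit false

/-!
# Project BD: conclusion for real dilations
-/

namespace Pool.Agent.Q286.BD

open Complex MeasureTheory Filter Topology Set

/-- admissible coefficient functions -/
abbrev Ad (lam : ℝ) : Type := {a : ℝ →₀ ℝ // ∀ θ ∈ a.support, lam ≤ θ ∧ θ ≤ 1}

/-- the squared Nyman-Beurling distance -/
noncomputable def DR (lam : ℝ) : ℝ := ⨅ a : Ad lam, JR a

lemma JR_nonneg (a : ℝ →₀ ℝ) : 0 ≤ JR a := integral_nonneg fun _ => sq_nonneg _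

lemma bddR (lam : ℝ) : BddBelow (Set.range fun a : Ad lam => JR a) :=
  ⟨0, by rintro _ ⟨a, rfl⟩; exact JR_nonneg a⟩

instance (lam : ℝ) : Nonempty (Ad lam) := ⟨⟨0, by simp⟩⟩

lemma DR_le {lam : ℝ} (a : Ad lam) : DR lam ≤ JR a := ciInf_le (bddR lam) a

lemma le_DR {lam c : ℝ} (h : ∀ a : Ad lam, c ≤ JR a) : c ≤ DR lam := le_ciInf h

/-- integer dilations as real dilations -/
noncomputable def toR (N : ℕ) (a : ℕ → ℝ) : ℝ →₀ ℝ :=
  ∑ n ∈ Finset.Icc 1 N, Finsupp.single (1 / (n : ℝ)) (a n)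

lemma toR_supp (N : ℕ) (a : ℕ → ℝ) {lam : ℝ} (hl : 0 < lam) (hN : (N : ℝ) ≤ 1 / lam) :
    ∀ θ ∈ (toR N a).support, lam ≤ θ ∧ θ ≤ 1 := by
  classical
  intro θ hθ
  have h1 := Finsupp.support_finsetSum hθ
  rw [Finset.mem_biUnion] at h1
  obtain ⟨n, hn, h2⟩ := h1
  have h3 := Finsupp.support_single_subset h2
  rw [Finset.mem_singleton] at h3
  rw [Finset.mem_Icc] at hn
  have hn1 : (1 : ℝ) ≤ n := by exact_mod_cast hn.1
  have hn2 : (n : ℝ) ≤ 1 / lam := le_trans (by exact_mod_cast hn.2) hN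
  rw [h3]
  constructor
  · rw [le_div_iff₀ (by linarith)]
    rw [le_div_iff₀ hl] at hn2
    linarith
  · rw [div_le_one (by linarith)]; exact hn1

lemma difR_toR (N : ℕ) (a : ℕ → ℝ) (x : ℝ) : difR (toR N a) x = dif N a x := by
  classical
  unfold difR dif toR
  congr 1
  rw [← Finsupp.sum_finsetSum_index (h := fun θ c => c * Int.fract (θ / x)) (by simp) (by intros; ring)]
  refine Finset.sum_congr rfl fun n _ => ?_
  rw [Finsupp.sum_single_index (by simp), div_div]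

lemma JR_toR (N : ℕ) (a : ℕ → ℝ) : JR (toR N a) = JJ N a := by
  unfold JR JJ
  simp_rw [difR_toR]

lemma DR_le_d2 {N : ℕ} {lam : ℝ} (hl : 0 < lam) (hN : (N : ℝ) ≤ 1 / lam) : DR lam ≤ d2 N := by
  refine le_d2 fun a => ?_
  rw [← JR_toR]
  exact DR_le ⟨toR N a, toR_supp N a hl hN⟩

lemma DR_nonneg (lam : ℝ) : 0 ≤ DR lam := le_DR fun a => JR_nonneg a

theorem tendsR (hup : S_up) (hlow : S_low) (hlowR : S_lowR) (h2 : S_sum2) (hRH : RiemannHypothesis) :
    Tendsto (fun lam : ℝ => DR lam * Real.log (1 / lam)) (𝓝[>] 0) (𝓝 CB) := by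
  have hs := summ_line hRH h2
  -- upper bound
  have hfl : Tendsto (fun lam : ℝ => ⌊1 / lam⌋₊) (𝓝[>] 0) atTop := by
    have : Tendsto (fun lam : ℝ => 1 / lam) (𝓝[>] 0) atTop := by
      simpa only [one_div] using tendsto_inv_nhdsGT_zero (𝕜 := ℝ)
    exact tendsto_nat_floor_atTop.comp this
  have hratio : Tendsto (fun lam : ℝ => Real.log (1 / lam) / Real.log ⌊1 / lam⌋₊) (𝓝[>] 0) (𝓝 1) := by
    have hinv : Tendsto (fun lam : ℝ => 1 / lam) (𝓝[>] 0) atTop := by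
      simpa only [one_div] using tendsto_inv_nhdsGT_zero (𝕜 := ℝ)
    have key : Tendsto (fun x : ℝ => Real.log x / Real.log ⌊x⌋₊) atTop (𝓝 1) := by
      have h5 : Tendsto (fun x : ℝ => Real.log ⌊x⌋₊) atTop atTop :=
        Real.tendsto_log_atTop.comp (tendsto_natCast_atTop_atTop.comp tendsto_nat_floor_atTop)
      have h6 : Tendsto (fun x : ℝ => Real.log 2 / Real.log ⌊x⌋₊) atTop (𝓝 0) :=
        tendsto_const_nhds.div_atTop h5
      have h7 : Tendsto (fun x : ℝ => 1 + Real.log 2 / Real.log ⌊x⌋₊) atTop (𝓝 1) := by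
        simpa using (tendsto_const_nhds (x := (1 : ℝ))).add h6
      refine tendsto_of_tendsto_of_tendsto_of_le_of_le' tendsto_const_nhds h7 ?_ ?_
      · filter_upwards [h5.eventually_gt_atTop 0, eventually_ge_atTop 1] with x hx hx1
        rw [le_div_iff₀ hx, one_mul]
        have hp : (0 : ℝ) < ⌊x⌋₊ := by exact_mod_cast Nat.floor_pos.mpr hx1
        exact Real.log_le_log hp (Nat.floor_le (by linarith))
      · filter_upwards [h5.eventually_gt_atTop 0, eventually_ge_atTop 1] with x hx hx1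
        rw [div_le_iff₀ hx, add_mul, one_mul, div_mul_cancel₀ _ hx.ne']
        have hp : (1 : ℝ) ≤ ⌊x⌋₊ := by exact_mod_cast Nat.floor_pos.mpr hx1
        rw [← Real.log_mul (by positivity) (by norm_num)]
        refine Real.log_le_log (by linarith) ?_
        have := (Nat.lt_floor_add_one x).le
        linarith
    exact key.comp hinv
  have hd := (tends hup hlow h2 hRH).comp hfl
  have hprod := hd.mul hratio
  rw [mul_one] at hprod
  have hup' : ∀ ε : ℝ, 0 < ε → ∀ᶠ lam : ℝ in 𝓝[>] 0, DR lam * Real.log (1 / lam) ≤ CB + ε := by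
    intro ε hε
    have h5 := hprod.eventually_le_const (show CB < CB + ε by linarith)
    have h6 : ∀ᶠ lam : ℝ in 𝓝[>] 0, 2 ≤ ⌊1 / lam⌋₊ := hfl.eventually_ge_atTop 2
    filter_upwards [h5, h6, self_mem_nhdsWithin] with lam h7 h8 h9
    have hl : (0 : ℝ) < lam := h9
    refine le_trans ?_ h7
    show DR lam * Real.log (1 / lam) ≤
      d2 ⌊1 / lam⌋₊ * Real.log (⌊1 / lam⌋₊ : ℕ) * (Real.log (1 / lam) / Real.log ⌊1 / lam⌋₊)
    have hpos : 0 < Real.log (⌊1 / lam⌋₊ : ℝ) := Real.log_pos (by exact_mod_cast (by omega : 1 < ⌊1 / lam⌋₊))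
    have e : d2 ⌊1 / lam⌋₊ * Real.log (⌊1 / lam⌋₊ : ℕ) * (Real.log (1 / lam) / Real.log ⌊1 / lam⌋₊) =
        d2 ⌊1 / lam⌋₊ * Real.log (1 / lam) := by
      field_simp
    rw [e]
    have hfle : ((⌊1 / lam⌋₊ : ℕ) : ℝ) ≤ 1 / lam := Nat.floor_le (by positivity)
    have hlog : 0 ≤ Real.log (1 / lam) := by
      refine Real.log_nonneg (le_trans ?_ hfle)
      exact_mod_cast (by omega : 1 ≤ ⌊1 / lam⌋₊)
    exact mul_le_mul_of_nonneg_right (DR_le_d2 hl hfle) hlog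
  rw [← sum_line hRH] at hup' ⊢
  rw [Metric.tendsto_nhds]
  intro ε hε
  have h4 : ∀ᶠ S : Finset Go in atTop,
      ∑' g : Go, (mz (cl g) : ℝ) ^ 2 / (1 / 4 + (g : ℝ) ^ 2) - ε / 4 <
        ∑ g ∈ S, (mz (cl g) : ℝ) ^ 2 / (1 / 4 + (g : ℝ) ^ 2) :=
    hs.hasSum.eventually_const_lt (by linarith)
  obtain ⟨S, hS⟩ := h4.exists
  obtain ⟨δ, hδ, hδ1, hl⟩ := hlowR (S.map (Function.Embedding.subtype _)) (by
    intro g hg
    rw [Finset.mem_map] at hg
    obtain ⟨g', -, rfl⟩ := hg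
    exact g'.2) (ε / 4) (by linarith)
  rw [Finset.sum_map] at hl
  have hI : ∀ᶠ lam : ℝ in 𝓝[>] 0, lam < δ := by
    have : Iio δ ∈ 𝓝[>] (0 : ℝ) := mem_nhdsWithin_of_mem_nhds (Iio_mem_nhds hδ)
    exact this
  filter_upwards [hup' (ε / 2) (by linarith), hI, self_mem_nhdsWithin] with lam h7 h8 h9
  have hpos : 0 < Real.log (1 / lam) := by
    refine Real.log_pos ?_
    rw [lt_div_iff₀ h9, one_mul]
    linarith
  have l1 : ∑ g ∈ S, (mz (cl g) : ℝ) ^ 2 / (1 / 4 + (g : ℝ) ^ 2) - ε / 4 ≤ DR lam * Real.log (1 / lam) := by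
    rw [← div_le_iff₀ hpos]
    refine le_DR fun a => ?_
    rw [div_le_iff₀ hpos]
    exact hl lam h9 h8 a a.2
  rw [Real.dist_eq, abs_lt]
  constructor <;> linarith

theorem not_tendsR (hn : S_nrhR) (h : ¬ RiemannHypothesis) {C : ℝ}
    (hC : ∃ᶠ lam : ℝ in 𝓝[>] 0, DR lam * Real.log (1 / lam) ≤ C) : False := by
  obtain ⟨c, hc, hb⟩ := hn h
  have hinv : Tendsto (fun lam : ℝ => 1 / lam) (𝓝[>] 0) atTop := by
    simpa only [one_div] using tendsto_inv_nhdsGT_zero (𝕜 := ℝ)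
  have h1 : Tendsto (fun lam : ℝ => c * Real.log (1 / lam)) (𝓝[>] 0) atTop :=
    (Real.tendsto_log_atTop.comp hinv).const_mul_atTop hc
  obtain ⟨lam, hN1, ⟨hN2, h4⟩, h5⟩ := (hC.and_eventually ((h1.eventually_gt_atTop C).and
    (self_mem_nhdsWithin : Ioi (0:ℝ) ∈ 𝓝[>] 0) |>.and ((Real.tendsto_log_atTop.comp hinv).eventually_ge_atTop 0))).exists
  have hl : (0 : ℝ) < lam := h4
  have h5' : 0 ≤ Real.log (1 / lam) := h5
  have h2 : c * Real.log (1 / lam) ≤ DR lam * Real.log (1 / lam) :=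
    mul_le_mul_of_nonneg_right (le_DR fun a => hb a fun θ hθ => ⟨lt_of_lt_of_le hl (a.2 θ hθ).1, (a.2 θ hθ).2⟩) h5'
  linarith

theorem iffR1 (hup : S_up) (hlow : S_low) (hlowR : S_lowR) (hn : S_nrhR) (h2 : S_sum2) :
    RiemannHypothesis ↔ Tendsto (fun lam : ℝ => DR lam * Real.log (1 / lam)) (𝓝[>] 0) (𝓝 CB) := by
  refine ⟨tendsR hup hlow hlowR h2, fun h => ?_⟩
  by_contra hno
  exact not_tendsR hn hno (C := CB + 1) (h.eventually_le_const (by linarith)).frequently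

theorem iffR3 (hup : S_up) (hlow : S_low) (hlowR : S_lowR) (hn : S_nrhR) (hc : S_const) (h2 : S_sum2) :
    (RiemannHypothesis ∧ ∀ ρ : Zr, mz ρ = 1) ↔
    Tendsto (fun lam : ℝ => DR lam * Real.log (1 / lam)) (𝓝[>] 0)
      (𝓝 (2 + Real.eulerMascheroniConstant - Real.log (4 * Real.pi))) := by
  constructor
  · rintro ⟨hRH, hm⟩
    have h := tendsR hup hlow hlowR h2 hRH
    rw [(CB_eq_iff h2).mpr hm] at h
    have h5 := hc hRH
    rw [← h5]; exact h
  · intro h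
    have hRH : RiemannHypothesis := by
      by_contra hno
      exact not_tendsR hn hno (C := 2 + Real.eulerMascheroniConstant - Real.log (4 * Real.pi) + 1)
        (h.eventually_le_const (by linarith)).frequently
    refine ⟨hRH, (CB_eq_iff h2).mp ?_⟩
    have h5 := hc hRH
    have h6 := tendsto_nhds_unique (tendsR hup hlow hlowR h2 hRH) h
    rw [h6, ← h5]

end Pool.Agent.Q286.BD
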