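import Pool.Agent.Q286.BD.Fin
import Pool.Agent.Q286.BD.Fin2
import Pool.Agent.Q261.BD.LD
import Pool.Agent.Q261.BD.Gr
import Pool.Agent.Q162.BD.ZtwoB
import Pool.Agent.Q237.BD.Hh
import Pool.Agent.Q153.BD.Per
import Pool.Agent.Q237.BD.PerRH
import Pool.Agent.Q296.BD.Pt
import Pool.Agent.Q296.BD.Dec
import Pool.Agent.Q237.BD.Inv
import Pool.Agent.Q237.BD.Lim
import Pool.Agent.Q202.BD.Asm
import Pool.Agent.Q238.BD.Gev
import Pool.Agent.Q202.BD.Leg
import Pool.Agent.Q177.BD.Cost
import Pool.Agent.Q210.BD.Loc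
import Pool.Agent.Q237.BD.Mel
import Pool.Agent.Q210.BD.Nrh
import Pool.Agent.Q210.BD.Const
import Pool.Agent.Q210.BD.OrthR
import Pool.Agent.Q238.BD.Saw
import Pool.Agent.Q202.BD.Coef
import Pool.Agent.Q153.BD.T1
import Pool.Agent.Q95.BD.T2
import Pool.Agent.Q202.BD.Low
import Pool.Agent.Q149.BD.U
import Pool.Agent.Q210.BD.NrhR
import Pool.Agent.Q210.BD.Band
import Pool.Agent.Q210.BD.TN
import Pool.Agent.Q210.BD.LowR
import Pool.Agent.Q258.BD.TR

namespace Pool.Agent.Q286.BD

theorem ld : S_LD := Q261.BD.ld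
theorem far : S_far := Q261.BD.far
theorem far2 : S_far' := Q261.BD.far2
theorem mono : S_mono := Q261.BD.mono
theorem ratio : S_ratio := Q162.BD.ratio ld far far2 mono
theorem lowb : S_lowb := Q162.BD.lowb ld far far2 mono
theorem upz : S_upz := Q162.BD.upz ld far far2 mono
theorem hh : S_H := Q237.BD.hh'
theorem per : S_per := Q153.BD.per
theorem perRH : S_perRH := Q237.BD.perRH per lowb
theorem pt : S_pt := Q296.BD.pt ratio lowb upz perRH
theorem dec : S_dec := Q296.BD.dec ratio lowb upz perRH hh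
theorem inv : S_inv := Q237.BD.inv
theorem lim : S_lim := Q237.BD.lim inv perRH ratio lowb upz
theorem asm : S_asm := Q202.BD.asm
theorem gev : S_gev := Q238.BD.gev
theorem leg : S_leg := Q202.BD.leg
theorem cost : S_cost := Q177.BD.cost gev leg
theorem loc : S_loc := Q210.BD.loc
theorem mel : S_mel := Q237.BD.mel
theorem const : S_const := Q210.BD.const
theorem sum2 : S_sum2 := Q210.BD.sum2
theorem cnt : S_cnt := Q210.BD.cnt
theorem orth : S_orth := Q210.BD.orth
theorem nrh : S_nrh := Q210.BD.nrh orth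
theorem saw : S_saw := Q238.BD.saw
theorem coef : S_coef := Q202.BD.coef
theorem t1 : S_T1 := Q153.BD.t1 orth saw
theorem t2 : S_T2 := Q95.BD.t2
theorem low : S_low := Q202.BD.low leg t1 t2 coef
theorem up : S_up := Q149.BD.up pt dec lim asm cost loc mel cnt sum2 upz
theorem orthR : S_orthR := Q210.BD.orthR
theorem band : S_band := Q210.BD.band
theorem tR : S_TR := Q258.BD.tR orthR band
theorem tN : S_TN := Q210.BD.tN
theorem intR : S_intR := Q210.BD.intR
theorem lowR : S_lowR := Q210.BD.lowR leg tR tN intR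
theorem nrhR : S_nrhR := Q210.BD.nrhR

end Pool.Agent.Q286.BD
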