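import Pool.Agent.Q286.BD.Spec

set_option autoImplicit false

/-!
# Project BD, second part: the Nyman-Beurling distance with all real dilations `θ ∈ [lam, 1]`
-/

namespace Pool.Agent.Q286.BD

open Complex MeasureTheory Filter Topology Set

/-- `χ(x) - ∑_θ a_θ {θ/x}` -/
noncomputable def difR (a : ℝ →₀ ℝ) (x : ℝ) : ℝ :=
  (if x ≤ 1 then 1 else 0) - a.sum fun θ c => c * Int.fract (θ / x)

/-- its squared norm -/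
noncomputable def JR (a : ℝ →₀ ℝ) : ℝ := ∫ x in Ioi (0 : ℝ), difR a x ^ 2

/-- R0: integrability -/
def S_intR : Prop := ∀ a : ℝ →₀ ℝ, (∀ θ ∈ a.support, 0 < θ ∧ θ ≤ 1) →
  IntegrableOn (fun x : ℝ => difR a x ^ 2) (Ioi 0)

/-- R1: orthogonality at a zero, real dilations -/
def S_orthR : Prop := ∀ (ρ : ℂ), 0 < ρ.re → ρ.re < 1 → ∀ (j : ℕ) (θ : ℝ), j < mz ρ → 0 < θ → θ ≤ 1 →
  IntegrableOn (fun y : ℝ => ((Int.fract (θ * y) : ℝ) : ℂ) * (y : ℂ) ^ (-ρ - 1) * ((Real.log y : ℝ) : ℂ) ^ j)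
    (Ioi 1) ∧
  ∫ y in Ioi (1 : ℝ), ((Int.fract (θ * y) : ℝ) : ℂ) * (y : ℂ) ^ (-ρ - 1) * ((Real.log y : ℝ) : ℂ) ^ j =
    -((θ : ℂ) * ((-1) ^ j * (j.factorial : ℂ) / (1 - ρ) ^ (j + 1)))

/-- R2: odd integrable functions with spectrum in `[-lam, lam]` and vanishing mean on the half line are orthogonal
to the fractional parts `{θ y}`, `θ ≥ lam` -/
def S_band : Prop := ∀ (f : ℝ → ℂ) (lam : ℝ), 0 < lam → Continuous f → Integrable f → (∀ y, f (-y) = -f y) →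
  (∀ ξ : ℝ, lam ≤ |ξ| → ∫ y : ℝ, cexp (-(2 * Real.pi * ξ * y * I)) * f y = 0) →
  ∫ y in Ioi (0 : ℝ), f y = 0 → ∀ θ : ℝ, lam ≤ θ →
  ∫ y in Ioi (0 : ℝ), ((Int.fract (θ * y) : ℝ) : ℂ) * f y = 0

/-- main part of the test function -/
noncomputable def Km (g : ℝ) (p : Polynomial ℝ) (L y : ℝ) : ℂ :=
  if 1 ≤ y ∧ y ≤ Real.exp L then (y : ℂ) ^ (-cl g - 1) * ((p.eval (Real.log y / L) : ℝ) : ℂ) else 0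

/-- R3: exactly orthogonal test functions -/
def S_TR : Prop := ∀ (g : ℝ) (p : Polynomial ℝ), riemannZeta (cl g) = 0 → p.degree < mz (cl g) →
  ∃ C : ℝ, 0 < C ∧ ∀ L : ℝ, 1 ≤ L → ∃ K : ℝ → ℂ, Measurable K ∧ IntegrableOn K (Ioi 0) ∧
  (∀ θ : ℝ, Real.exp (-L) ≤ θ → θ ≤ 1 → ∫ y in Ioi (0 : ℝ), ((Int.fract (θ * y) : ℝ) : ℂ) * K y = 0) ∧
  ‖(∫ y in Ioi (1 : ℝ), K y) - ((p.eval 0 : ℝ) : ℂ) / cl g‖ ≤ C / L ∧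
  IntegrableOn (fun y : ℝ => ‖K y - Km g p L y‖ ^ 2 * y ^ 2) (Ioi 0) ∧
  ∫ y in Ioi (0 : ℝ), ‖K y - Km g p L y‖ ^ 2 * y ^ 2 ≤ C

/-- R4: the norm of a combination of main parts -/
def S_TN : Prop := ∀ (S : Finset ℝ) (p : ℝ → Polynomial ℝ) (w : ℝ → ℂ), ∃ C : ℝ, 0 < C ∧ ∀ L : ℝ, 1 ≤ L →
  IntegrableOn (fun y : ℝ => ‖∑ g ∈ S, w g * Km g (p g) L y‖ ^ 2 * y ^ 2) (Ioi 0) ∧
  ∫ y in Ioi (0 : ℝ), ‖∑ g ∈ S, w g * Km g (p g) L y‖ ^ 2 * y ^ 2 ≤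
    L * (∑ g ∈ S, ‖w g‖ ^ 2 * ∫ u in (0 : ℝ)..1, (p g).eval u ^ 2) + C

/-- R5: **Burnol's lower bound**, real dilations -/
def S_lowR : Prop := ∀ (S : Finset ℝ), (∀ g ∈ S, riemannZeta (cl g) = 0) → ∀ η : ℝ, 0 < η →
  ∃ δ : ℝ, 0 < δ ∧ δ < 1 ∧ ∀ lam : ℝ, 0 < lam → lam < δ → ∀ a : ℝ →₀ ℝ, (∀ θ ∈ a.support, lam ≤ θ ∧ θ ≤ 1) →
  ∑ g ∈ S, (mz (cl g) : ℝ) ^ 2 / (1 / 4 + g ^ 2) - η ≤ JR a * Real.log (1 / lam)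

/-- R6: if RH fails -/
def S_nrhR : Prop := ¬ RiemannHypothesis → ∃ c : ℝ, 0 < c ∧
  ∀ a : ℝ →₀ ℝ, (∀ θ ∈ a.support, 0 < θ ∧ θ ≤ 1) → c ≤ JR a

end Pool.Agent.Q286.BD
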